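import Pool.Agent.W5h64.Crit

/-! A nilpotent Malcev algebra of dimension fifteen without faithful representations. -/

namespace Pool.Agent.V5helper32.Mal

open Pool.Agent.W5h64.Mal

section alg

variable (F : Type*) [Field F]

/-- The product of the fifteen-dimensional algebra, in coordinates. -/
def prodFun (x y : Fin 15 → F) : Fin 15 → F :=
  ![0, 0, 0, 0, 0,
    x 0 * y 1 - x 1 * y 0,
    x 3 * y 4 - x 4 * y 3,
    x 5 * y 2 - x 2 * y 5,
    x 5 * y 3 - x 3 * y 5,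
    x 5 * y 4 - x 4 * y 5,
    x 0 * y 6 - x 6 * y 0,
    x 1 * y 6 - x 6 * y 1,
    x 2 * y 6 - x 6 * y 2,
    (x 0 * y 11 - x 11 * y 0) + (x 10 * y 1 - x 1 * y 10) + (x 3 * y 9 - x 9 * y 3)
      + (x 8 * y 4 - x 4 * y 8),
    (x 13 * y 2 - x 2 * y 13) + (x 12 * y 5 - x 5 * y 12) + (x 7 * y 6 - x 6 * y 7)]

/-- The product as a bilinear map. -/
def mul15 : (Fin 15 → F) →ₗ[F] (Fin 15 → F) →ₗ[F] (Fin 15 → F) :=
  LinearMap.mk₂ F (prodFun F)
    (by intro x x' y; funext i; fin_cases i <;> simp [prodFun] <;> ring)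
    (by intro c x y; funext i; fin_cases i <;> simp [prodFun] <;> ring)
    (by intro x y y'; funext i; fin_cases i <;> simp [prodFun] <;> ring)
    (by intro c x y; funext i; fin_cases i <;> simp [prodFun] <;> ring)

theorem mul15_apply (x y : Fin 15 → F) : mul15 F x y = prodFun F x y := rfl

theorem mul15_malcev : IsMalcev (mul15 F) := by
  constructor
  · intro x
    rw [mul15_apply]
    funext i
    fin_cases i <;> simp [prodFun] <;> ring
  · intro x y z
    simp only [mul15_apply]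
    funext i
    fin_cases i <;> simp [prodFun] <;> ring

theorem mul15_sixZero : SixZero (mul15 F) := by
  constructor <;> intro a b c d x y <;> simp only [mul15_apply] <;> funext i <;>
    fin_cases i <;> simp [prodFun]

/-- The basis vectors. -/
def e (i : Fin 15) : Fin 15 → F := Pi.single i 1

theorem m_0_1 : mul15 F (e F 0) (e F 1) = e F 5 := by
  rw [mul15_apply]; funext k; fin_cases k <;> simp [prodFun, e, Pi.single_apply]

theorem m_0_2 : mul15 F (e F 0) (e F 2) = 0 := by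
  rw [mul15_apply]; funext k; fin_cases k <;> simp [prodFun, e, Pi.single_apply]

theorem m_0_6 : mul15 F (e F 0) (e F 6) = e F 10 := by
  rw [mul15_apply]; funext k; fin_cases k <;> simp [prodFun, e, Pi.single_apply]

theorem m_0_11 : mul15 F (e F 0) (e F 11) = e F 13 := by
  rw [mul15_apply]; funext k; fin_cases k <;> simp [prodFun, e, Pi.single_apply]

theorem m_1_0 : mul15 F (e F 1) (e F 0) = -e F 5 := by
  rw [mul15_apply]; funext k; fin_cases k <;> simp [prodFun, e, Pi.single_apply]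

theorem m_1_2 : mul15 F (e F 1) (e F 2) = 0 := by
  rw [mul15_apply]; funext k; fin_cases k <;> simp [prodFun, e, Pi.single_apply]

theorem m_1_6 : mul15 F (e F 1) (e F 6) = e F 11 := by
  rw [mul15_apply]; funext k; fin_cases k <;> simp [prodFun, e, Pi.single_apply]

theorem m_1_10 : mul15 F (e F 1) (e F 10) = -e F 13 := by
  rw [mul15_apply]; funext k; fin_cases k <;> simp [prodFun, e, Pi.single_apply]

theorem m_2_0 : mul15 F (e F 2) (e F 0) = 0 := by
  rw [mul15_apply]; funext k; fin_cases k <;> simp [prodFun, e, Pi.single_apply]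

theorem m_2_1 : mul15 F (e F 2) (e F 1) = 0 := by
  rw [mul15_apply]; funext k; fin_cases k <;> simp [prodFun, e, Pi.single_apply]

theorem m_2_3 : mul15 F (e F 2) (e F 3) = 0 := by
  rw [mul15_apply]; funext k; fin_cases k <;> simp [prodFun, e, Pi.single_apply]

theorem m_2_4 : mul15 F (e F 2) (e F 4) = 0 := by
  rw [mul15_apply]; funext k; fin_cases k <;> simp [prodFun, e, Pi.single_apply]

theorem m_2_5 : mul15 F (e F 2) (e F 5) = -e F 7 := by
  rw [mul15_apply]; funext k; fin_cases k <;> simp [prodFun, e, Pi.single_apply]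

theorem m_2_6 : mul15 F (e F 2) (e F 6) = e F 12 := by
  rw [mul15_apply]; funext k; fin_cases k <;> simp [prodFun, e, Pi.single_apply]

theorem m_2_8 : mul15 F (e F 2) (e F 8) = 0 := by
  rw [mul15_apply]; funext k; fin_cases k <;> simp [prodFun, e, Pi.single_apply]

theorem m_2_9 : mul15 F (e F 2) (e F 9) = 0 := by
  rw [mul15_apply]; funext k; fin_cases k <;> simp [prodFun, e, Pi.single_apply]

theorem m_2_10 : mul15 F (e F 2) (e F 10) = 0 := by
  rw [mul15_apply]; funext k; fin_cases k <;> simp [prodFun, e, Pi.single_apply]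

theorem m_2_11 : mul15 F (e F 2) (e F 11) = 0 := by
  rw [mul15_apply]; funext k; fin_cases k <;> simp [prodFun, e, Pi.single_apply]

theorem m_3_1 : mul15 F (e F 3) (e F 1) = 0 := by
  rw [mul15_apply]; funext k; fin_cases k <;> simp [prodFun, e, Pi.single_apply]

theorem m_3_2 : mul15 F (e F 3) (e F 2) = 0 := by
  rw [mul15_apply]; funext k; fin_cases k <;> simp [prodFun, e, Pi.single_apply]

theorem m_3_4 : mul15 F (e F 3) (e F 4) = e F 6 := by
  rw [mul15_apply]; funext k; fin_cases k <;> simp [prodFun, e, Pi.single_apply]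

theorem m_3_5 : mul15 F (e F 3) (e F 5) = -e F 8 := by
  rw [mul15_apply]; funext k; fin_cases k <;> simp [prodFun, e, Pi.single_apply]

theorem m_3_7 : mul15 F (e F 3) (e F 7) = 0 := by
  rw [mul15_apply]; funext k; fin_cases k <;> simp [prodFun, e, Pi.single_apply]

theorem m_3_9 : mul15 F (e F 3) (e F 9) = e F 13 := by
  rw [mul15_apply]; funext k; fin_cases k <;> simp [prodFun, e, Pi.single_apply]

theorem m_4_0 : mul15 F (e F 4) (e F 0) = 0 := by
  rw [mul15_apply]; funext k; fin_cases k <;> simp [prodFun, e, Pi.single_apply]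

theorem m_4_2 : mul15 F (e F 4) (e F 2) = 0 := by
  rw [mul15_apply]; funext k; fin_cases k <;> simp [prodFun, e, Pi.single_apply]

theorem m_4_3 : mul15 F (e F 4) (e F 3) = -e F 6 := by
  rw [mul15_apply]; funext k; fin_cases k <;> simp [prodFun, e, Pi.single_apply]

theorem m_4_5 : mul15 F (e F 4) (e F 5) = -e F 9 := by
  rw [mul15_apply]; funext k; fin_cases k <;> simp [prodFun, e, Pi.single_apply]

theorem m_4_7 : mul15 F (e F 4) (e F 7) = 0 := by
  rw [mul15_apply]; funext k; fin_cases k <;> simp [prodFun, e, Pi.single_apply]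

theorem m_4_8 : mul15 F (e F 4) (e F 8) = -e F 13 := by
  rw [mul15_apply]; funext k; fin_cases k <;> simp [prodFun, e, Pi.single_apply]

theorem m_5_2 : mul15 F (e F 5) (e F 2) = e F 7 := by
  rw [mul15_apply]; funext k; fin_cases k <;> simp [prodFun, e, Pi.single_apply]

theorem m_5_3 : mul15 F (e F 5) (e F 3) = e F 8 := by
  rw [mul15_apply]; funext k; fin_cases k <;> simp [prodFun, e, Pi.single_apply]

theorem m_5_4 : mul15 F (e F 5) (e F 4) = e F 9 := by
  rw [mul15_apply]; funext k; fin_cases k <;> simp [prodFun, e, Pi.single_apply]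

theorem m_5_6 : mul15 F (e F 5) (e F 6) = 0 := by
  rw [mul15_apply]; funext k; fin_cases k <;> simp [prodFun, e, Pi.single_apply]

theorem m_6_0 : mul15 F (e F 6) (e F 0) = -e F 10 := by
  rw [mul15_apply]; funext k; fin_cases k <;> simp [prodFun, e, Pi.single_apply]

theorem m_6_1 : mul15 F (e F 6) (e F 1) = -e F 11 := by
  rw [mul15_apply]; funext k; fin_cases k <;> simp [prodFun, e, Pi.single_apply]

theorem m_6_2 : mul15 F (e F 6) (e F 2) = -e F 12 := by
  rw [mul15_apply]; funext k; fin_cases k <;> simp [prodFun, e, Pi.single_apply]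

theorem m_6_5 : mul15 F (e F 6) (e F 5) = 0 := by
  rw [mul15_apply]; funext k; fin_cases k <;> simp [prodFun, e, Pi.single_apply]

theorem m_7_3 : mul15 F (e F 7) (e F 3) = 0 := by
  rw [mul15_apply]; funext k; fin_cases k <;> simp [prodFun, e, Pi.single_apply]

theorem m_7_4 : mul15 F (e F 7) (e F 4) = 0 := by
  rw [mul15_apply]; funext k; fin_cases k <;> simp [prodFun, e, Pi.single_apply]

theorem m_7_6 : mul15 F (e F 7) (e F 6) = e F 14 := by
  rw [mul15_apply]; funext k; fin_cases k <;> simp [prodFun, e, Pi.single_apply]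

theorem m_8_4 : mul15 F (e F 8) (e F 4) = e F 13 := by
  rw [mul15_apply]; funext k; fin_cases k <;> simp [prodFun, e, Pi.single_apply]

theorem m_9_3 : mul15 F (e F 9) (e F 3) = -e F 13 := by
  rw [mul15_apply]; funext k; fin_cases k <;> simp [prodFun, e, Pi.single_apply]

theorem m_10_1 : mul15 F (e F 10) (e F 1) = e F 13 := by
  rw [mul15_apply]; funext k; fin_cases k <;> simp [prodFun, e, Pi.single_apply]

theorem m_11_0 : mul15 F (e F 11) (e F 0) = -e F 13 := by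
  rw [mul15_apply]; funext k; fin_cases k <;> simp [prodFun, e, Pi.single_apply]

theorem m_12_0 : mul15 F (e F 12) (e F 0) = 0 := by
  rw [mul15_apply]; funext k; fin_cases k <;> simp [prodFun, e, Pi.single_apply]

theorem m_12_1 : mul15 F (e F 12) (e F 1) = 0 := by
  rw [mul15_apply]; funext k; fin_cases k <;> simp [prodFun, e, Pi.single_apply]

theorem m_12_5 : mul15 F (e F 12) (e F 5) = e F 14 := by
  rw [mul15_apply]; funext k; fin_cases k <;> simp [prodFun, e, Pi.single_apply]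

end alg

section rep

variable {F : Type*} [Field F] [CharZero F] {V : Type*} [AddCommGroup V] [Module F V]

theorem star_of_isRep {A : Type*} [AddCommGroup A] [Module F A] {m : A →ₗ[F] A →ₗ[F] A}
    {ρ : A →ₗ[F] Module.End F V} (h : IsRep m ρ) : Star m ρ := by
  intro x y z v
  have h1 := adjoint_star h ((x, 0) : A × V) (y, 0) (z, 0) (0, v)
  have h2 := congrArg Prod.snd h1
  simpa [nullExt_apply] using h2

theorem r_0_1_2 {ρ : (Fin 15 → F) →ₗ[F] Module.End F V} (h : Star (mul15 F) ρ) (v : V) :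
    ρ (e F 7) v = ρ (e F 2) (ρ (e F 1) (ρ (e F 0) v)) - ρ (e F 1) (ρ (e F 0) (ρ (e F 2) v)) := by
  have h1 := h (e F 0) (e F 1) (e F 2) v
  simp only [m_0_1, m_0_2, m_1_2, m_5_2, map_neg, map_zero, LinearMap.neg_apply, LinearMap.zero_apply] at h1
  linear_combination (norm := module) h1

theorem r_0_2_1 {ρ : (Fin 15 → F) →ₗ[F] Module.End F V} (h : Star (mul15 F) ρ) (v : V) :
    0 = ρ (e F 5) (ρ (e F 2) v) + ρ (e F 1) (ρ (e F 2) (ρ (e F 0) v)) - ρ (e F 2) (ρ (e F 0) (ρ (e F 1) v)) := by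
  have h1 := h (e F 0) (e F 2) (e F 1) v
  simp only [m_0_1, m_0_2, m_2_1, map_neg, map_zero, LinearMap.neg_apply, LinearMap.zero_apply] at h1
  linear_combination (norm := module) h1

theorem r_1_0_2 {ρ : (Fin 15 → F) →ₗ[F] Module.End F V} (h : Star (mul15 F) ρ) (v : V) :
    -ρ (e F 7) v = ρ (e F 2) (ρ (e F 0) (ρ (e F 1) v)) - ρ (e F 0) (ρ (e F 1) (ρ (e F 2) v)) := by
  have h1 := h (e F 1) (e F 0) (e F 2) v
  simp only [m_0_2, m_1_0, m_1_2, m_5_2, map_neg, map_zero, LinearMap.neg_apply, LinearMap.zero_apply] at h1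
  linear_combination (norm := module) h1

theorem r_1_2_0 {ρ : (Fin 15 → F) →ₗ[F] Module.End F V} (h : Star (mul15 F) ρ) (v : V) :
    0 = -ρ (e F 5) (ρ (e F 2) v) + ρ (e F 0) (ρ (e F 2) (ρ (e F 1) v)) - ρ (e F 2) (ρ (e F 1) (ρ (e F 0) v)) := by
  have h1 := h (e F 1) (e F 2) (e F 0) v
  simp only [m_1_0, m_1_2, m_2_0, map_neg, map_zero, LinearMap.neg_apply, LinearMap.zero_apply] at h1
  linear_combination (norm := module) h1

theorem r_2_0_1 {ρ : (Fin 15 → F) →ₗ[F] Module.End F V} (h : Star (mul15 F) ρ) (v : V) :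
    0 = ρ (e F 2) (ρ (e F 5) v) + ρ (e F 1) (ρ (e F 0) (ρ (e F 2) v)) - ρ (e F 0) (ρ (e F 2) (ρ (e F 1) v)) := by
  have h1 := h (e F 2) (e F 0) (e F 1) v
  simp only [m_0_1, m_2_0, m_2_1, map_neg, map_zero, LinearMap.neg_apply, LinearMap.zero_apply] at h1
  linear_combination (norm := module) h1

theorem r_2_0_6 {ρ : (Fin 15 → F) →ₗ[F] Module.End F V} (h : Star (mul15 F) ρ) (v : V) :
    0 = ρ (e F 12) (ρ (e F 0) v) + ρ (e F 2) (ρ (e F 10) v) + ρ (e F 6) (ρ (e F 0) (ρ (e F 2) v)) - ρ (e F 0) (ρ (e F 2) (ρ (e F 6) v)) := by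
  have h1 := h (e F 2) (e F 0) (e F 6) v
  simp only [m_0_6, m_2_0, m_2_6, map_neg, map_zero, LinearMap.neg_apply, LinearMap.zero_apply] at h1
  linear_combination (norm := module) h1

theorem r_2_0_11 {ρ : (Fin 15 → F) →ₗ[F] Module.End F V} (h : Star (mul15 F) ρ) (v : V) :
    0 = ρ (e F 2) (ρ (e F 13) v) + ρ (e F 11) (ρ (e F 0) (ρ (e F 2) v)) - ρ (e F 0) (ρ (e F 2) (ρ (e F 11) v)) := by
  have h1 := h (e F 2) (e F 0) (e F 11) v
  simp only [m_0_11, m_2_0, m_2_11, map_neg, map_zero, LinearMap.neg_apply, LinearMap.zero_apply] at h1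
  linear_combination (norm := module) h1

theorem r_2_1_0 {ρ : (Fin 15 → F) →ₗ[F] Module.End F V} (h : Star (mul15 F) ρ) (v : V) :
    0 = -ρ (e F 2) (ρ (e F 5) v) + ρ (e F 0) (ρ (e F 1) (ρ (e F 2) v)) - ρ (e F 1) (ρ (e F 2) (ρ (e F 0) v)) := by
  have h1 := h (e F 2) (e F 1) (e F 0) v
  simp only [m_1_0, m_2_0, m_2_1, map_neg, map_zero, LinearMap.neg_apply, LinearMap.zero_apply] at h1
  linear_combination (norm := module) h1

theorem r_2_1_6 {ρ : (Fin 15 → F) →ₗ[F] Module.End F V} (h : Star (mul15 F) ρ) (v : V) :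
    0 = ρ (e F 12) (ρ (e F 1) v) + ρ (e F 2) (ρ (e F 11) v) + ρ (e F 6) (ρ (e F 1) (ρ (e F 2) v)) - ρ (e F 1) (ρ (e F 2) (ρ (e F 6) v)) := by
  have h1 := h (e F 2) (e F 1) (e F 6) v
  simp only [m_1_6, m_2_1, m_2_6, map_neg, map_zero, LinearMap.neg_apply, LinearMap.zero_apply] at h1
  linear_combination (norm := module) h1

theorem r_2_1_10 {ρ : (Fin 15 → F) →ₗ[F] Module.End F V} (h : Star (mul15 F) ρ) (v : V) :
    0 = -ρ (e F 2) (ρ (e F 13) v) + ρ (e F 10) (ρ (e F 1) (ρ (e F 2) v)) - ρ (e F 1) (ρ (e F 2) (ρ (e F 10) v)) := by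
  have h1 := h (e F 2) (e F 1) (e F 10) v
  simp only [m_1_10, m_2_1, m_2_10, map_neg, map_zero, LinearMap.neg_apply, LinearMap.zero_apply] at h1
  linear_combination (norm := module) h1

theorem r_2_3_4 {ρ : (Fin 15 → F) →ₗ[F] Module.End F V} (h : Star (mul15 F) ρ) (v : V) :
    0 = ρ (e F 2) (ρ (e F 6) v) + ρ (e F 4) (ρ (e F 3) (ρ (e F 2) v)) - ρ (e F 3) (ρ (e F 2) (ρ (e F 4) v)) := by
  have h1 := h (e F 2) (e F 3) (e F 4) v
  simp only [m_2_3, m_2_4, m_3_4, map_neg, map_zero, LinearMap.neg_apply, LinearMap.zero_apply] at h1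
  linear_combination (norm := module) h1

theorem r_2_4_3 {ρ : (Fin 15 → F) →ₗ[F] Module.End F V} (h : Star (mul15 F) ρ) (v : V) :
    0 = -ρ (e F 2) (ρ (e F 6) v) + ρ (e F 3) (ρ (e F 4) (ρ (e F 2) v)) - ρ (e F 4) (ρ (e F 2) (ρ (e F 3) v)) := by
  have h1 := h (e F 2) (e F 4) (e F 3) v
  simp only [m_2_3, m_2_4, m_4_3, map_neg, map_zero, LinearMap.neg_apply, LinearMap.zero_apply] at h1
  linear_combination (norm := module) h1

theorem r_2_5_6 {ρ : (Fin 15 → F) →ₗ[F] Module.End F V} (h : Star (mul15 F) ρ) (v : V) :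
    -ρ (e F 14) v = ρ (e F 12) (ρ (e F 5) v) + ρ (e F 6) (ρ (e F 5) (ρ (e F 2) v)) - ρ (e F 5) (ρ (e F 2) (ρ (e F 6) v)) := by
  have h1 := h (e F 2) (e F 5) (e F 6) v
  simp only [m_2_5, m_2_6, m_5_6, m_7_6, map_neg, map_zero, LinearMap.neg_apply, LinearMap.zero_apply] at h1
  linear_combination (norm := module) h1

theorem r_3_1_2 {ρ : (Fin 15 → F) →ₗ[F] Module.End F V} (h : Star (mul15 F) ρ) (v : V) :
    0 = ρ (e F 2) (ρ (e F 1) (ρ (e F 3) v)) - ρ (e F 1) (ρ (e F 3) (ρ (e F 2) v)) := by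
  have h1 := h (e F 3) (e F 1) (e F 2) v
  simp only [m_1_2, m_3_1, m_3_2, map_neg, map_zero, LinearMap.neg_apply, LinearMap.zero_apply] at h1
  linear_combination (norm := module) h1

theorem r_3_2_4 {ρ : (Fin 15 → F) →ₗ[F] Module.End F V} (h : Star (mul15 F) ρ) (v : V) :
    0 = ρ (e F 6) (ρ (e F 2) v) + ρ (e F 4) (ρ (e F 2) (ρ (e F 3) v)) - ρ (e F 2) (ρ (e F 3) (ρ (e F 4) v)) := by
  have h1 := h (e F 3) (e F 2) (e F 4) v
  simp only [m_2_4, m_3_2, m_3_4, map_neg, map_zero, LinearMap.neg_apply, LinearMap.zero_apply] at h1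
  linear_combination (norm := module) h1

theorem r_3_2_5 {ρ : (Fin 15 → F) →ₗ[F] Module.End F V} (h : Star (mul15 F) ρ) (v : V) :
    0 = -ρ (e F 8) (ρ (e F 2) v) - ρ (e F 3) (ρ (e F 7) v) + ρ (e F 5) (ρ (e F 2) (ρ (e F 3) v)) - ρ (e F 2) (ρ (e F 3) (ρ (e F 5) v)) := by
  have h1 := h (e F 3) (e F 2) (e F 5) v
  simp only [m_2_5, m_3_2, m_3_5, map_neg, map_zero, LinearMap.neg_apply, LinearMap.zero_apply] at h1
  linear_combination (norm := module) h1

theorem r_3_2_9 {ρ : (Fin 15 → F) →ₗ[F] Module.End F V} (h : Star (mul15 F) ρ) (v : V) :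
    0 = ρ (e F 13) (ρ (e F 2) v) + ρ (e F 9) (ρ (e F 2) (ρ (e F 3) v)) - ρ (e F 2) (ρ (e F 3) (ρ (e F 9) v)) := by
  have h1 := h (e F 3) (e F 2) (e F 9) v
  simp only [m_2_9, m_3_2, m_3_9, map_neg, map_zero, LinearMap.neg_apply, LinearMap.zero_apply] at h1
  linear_combination (norm := module) h1

theorem r_3_4_2 {ρ : (Fin 15 → F) →ₗ[F] Module.End F V} (h : Star (mul15 F) ρ) (v : V) :
    -ρ (e F 12) v = ρ (e F 2) (ρ (e F 4) (ρ (e F 3) v)) - ρ (e F 4) (ρ (e F 3) (ρ (e F 2) v)) := by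
  have h1 := h (e F 3) (e F 4) (e F 2) v
  simp only [m_3_2, m_3_4, m_4_2, m_6_2, map_neg, map_zero, LinearMap.neg_apply, LinearMap.zero_apply] at h1
  linear_combination (norm := module) h1

theorem r_3_5_4 {ρ : (Fin 15 → F) →ₗ[F] Module.End F V} (h : Star (mul15 F) ρ) (v : V) :
    -ρ (e F 13) v = ρ (e F 6) (ρ (e F 5) v) + ρ (e F 3) (ρ (e F 9) v) + ρ (e F 4) (ρ (e F 5) (ρ (e F 3) v)) - ρ (e F 5) (ρ (e F 3) (ρ (e F 4) v)) := by
  have h1 := h (e F 3) (e F 5) (e F 4) v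
  simp only [m_3_4, m_3_5, m_5_4, m_8_4, map_neg, map_zero, LinearMap.neg_apply, LinearMap.zero_apply] at h1
  linear_combination (norm := module) h1

theorem r_3_7_4 {ρ : (Fin 15 → F) →ₗ[F] Module.End F V} (h : Star (mul15 F) ρ) (v : V) :
    0 = ρ (e F 6) (ρ (e F 7) v) + ρ (e F 4) (ρ (e F 7) (ρ (e F 3) v)) - ρ (e F 7) (ρ (e F 3) (ρ (e F 4) v)) := by
  have h1 := h (e F 3) (e F 7) (e F 4) v
  simp only [m_3_4, m_3_7, m_7_4, map_neg, map_zero, LinearMap.neg_apply, LinearMap.zero_apply] at h1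
  linear_combination (norm := module) h1

theorem r_4_0_2 {ρ : (Fin 15 → F) →ₗ[F] Module.End F V} (h : Star (mul15 F) ρ) (v : V) :
    0 = ρ (e F 2) (ρ (e F 0) (ρ (e F 4) v)) - ρ (e F 0) (ρ (e F 4) (ρ (e F 2) v)) := by
  have h1 := h (e F 4) (e F 0) (e F 2) v
  simp only [m_0_2, m_4_0, m_4_2, map_neg, map_zero, LinearMap.neg_apply, LinearMap.zero_apply] at h1
  linear_combination (norm := module) h1

theorem r_4_2_3 {ρ : (Fin 15 → F) →ₗ[F] Module.End F V} (h : Star (mul15 F) ρ) (v : V) :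
    0 = -ρ (e F 6) (ρ (e F 2) v) + ρ (e F 3) (ρ (e F 2) (ρ (e F 4) v)) - ρ (e F 2) (ρ (e F 4) (ρ (e F 3) v)) := by
  have h1 := h (e F 4) (e F 2) (e F 3) v
  simp only [m_2_3, m_4_2, m_4_3, map_neg, map_zero, LinearMap.neg_apply, LinearMap.zero_apply] at h1
  linear_combination (norm := module) h1

theorem r_4_2_5 {ρ : (Fin 15 → F) →ₗ[F] Module.End F V} (h : Star (mul15 F) ρ) (v : V) :
    0 = -ρ (e F 9) (ρ (e F 2) v) - ρ (e F 4) (ρ (e F 7) v) + ρ (e F 5) (ρ (e F 2) (ρ (e F 4) v)) - ρ (e F 2) (ρ (e F 4) (ρ (e F 5) v)) := by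
  have h1 := h (e F 4) (e F 2) (e F 5) v
  simp only [m_2_5, m_4_2, m_4_5, map_neg, map_zero, LinearMap.neg_apply, LinearMap.zero_apply] at h1
  linear_combination (norm := module) h1

theorem r_4_2_8 {ρ : (Fin 15 → F) →ₗ[F] Module.End F V} (h : Star (mul15 F) ρ) (v : V) :
    0 = -ρ (e F 13) (ρ (e F 2) v) + ρ (e F 8) (ρ (e F 2) (ρ (e F 4) v)) - ρ (e F 2) (ρ (e F 4) (ρ (e F 8) v)) := by
  have h1 := h (e F 4) (e F 2) (e F 8) v
  simp only [m_2_8, m_4_2, m_4_8, map_neg, map_zero, LinearMap.neg_apply, LinearMap.zero_apply] at h1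
  linear_combination (norm := module) h1

theorem r_4_3_2 {ρ : (Fin 15 → F) →ₗ[F] Module.End F V} (h : Star (mul15 F) ρ) (v : V) :
    ρ (e F 12) v = ρ (e F 2) (ρ (e F 3) (ρ (e F 4) v)) - ρ (e F 3) (ρ (e F 4) (ρ (e F 2) v)) := by
  have h1 := h (e F 4) (e F 3) (e F 2) v
  simp only [m_3_2, m_4_2, m_4_3, m_6_2, map_neg, map_zero, LinearMap.neg_apply, LinearMap.zero_apply] at h1
  linear_combination (norm := module) h1

theorem r_4_5_3 {ρ : (Fin 15 → F) →ₗ[F] Module.End F V} (h : Star (mul15 F) ρ) (v : V) :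
    ρ (e F 13) v = -ρ (e F 6) (ρ (e F 5) v) + ρ (e F 4) (ρ (e F 8) v) + ρ (e F 3) (ρ (e F 5) (ρ (e F 4) v)) - ρ (e F 5) (ρ (e F 4) (ρ (e F 3) v)) := by
  have h1 := h (e F 4) (e F 5) (e F 3) v
  simp only [m_4_3, m_4_5, m_5_3, m_9_3, map_neg, map_zero, LinearMap.neg_apply, LinearMap.zero_apply] at h1
  linear_combination (norm := module) h1

theorem r_4_7_3 {ρ : (Fin 15 → F) →ₗ[F] Module.End F V} (h : Star (mul15 F) ρ) (v : V) :
    0 = -ρ (e F 6) (ρ (e F 7) v) + ρ (e F 3) (ρ (e F 7) (ρ (e F 4) v)) - ρ (e F 7) (ρ (e F 4) (ρ (e F 3) v)) := by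
  have h1 := h (e F 4) (e F 7) (e F 3) v
  simp only [m_4_3, m_4_7, m_7_3, map_neg, map_zero, LinearMap.neg_apply, LinearMap.zero_apply] at h1
  linear_combination (norm := module) h1

theorem r_6_0_1 {ρ : (Fin 15 → F) →ₗ[F] Module.End F V} (h : Star (mul15 F) ρ) (v : V) :
    -ρ (e F 13) v = -ρ (e F 11) (ρ (e F 0) v) + ρ (e F 6) (ρ (e F 5) v) + ρ (e F 1) (ρ (e F 0) (ρ (e F 6) v)) - ρ (e F 0) (ρ (e F 6) (ρ (e F 1) v)) := by
  have h1 := h (e F 6) (e F 0) (e F 1) v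
  simp only [m_0_1, m_10_1, m_6_0, m_6_1, map_neg, map_zero, LinearMap.neg_apply, LinearMap.zero_apply] at h1
  linear_combination (norm := module) h1

theorem r_6_1_0 {ρ : (Fin 15 → F) →ₗ[F] Module.End F V} (h : Star (mul15 F) ρ) (v : V) :
    ρ (e F 13) v = -ρ (e F 10) (ρ (e F 1) v) - ρ (e F 6) (ρ (e F 5) v) + ρ (e F 0) (ρ (e F 1) (ρ (e F 6) v)) - ρ (e F 1) (ρ (e F 6) (ρ (e F 0) v)) := by
  have h1 := h (e F 6) (e F 1) (e F 0) v
  simp only [m_11_0, m_1_0, m_6_0, m_6_1, map_neg, map_zero, LinearMap.neg_apply, LinearMap.zero_apply] at h1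
  linear_combination (norm := module) h1

theorem r_6_2_5 {ρ : (Fin 15 → F) →ₗ[F] Module.End F V} (h : Star (mul15 F) ρ) (v : V) :
    -ρ (e F 14) v = -ρ (e F 6) (ρ (e F 7) v) + ρ (e F 5) (ρ (e F 2) (ρ (e F 6) v)) - ρ (e F 2) (ρ (e F 6) (ρ (e F 5) v)) := by
  have h1 := h (e F 6) (e F 2) (e F 5) v
  simp only [m_12_5, m_2_5, m_6_2, m_6_5, map_neg, map_zero, LinearMap.neg_apply, LinearMap.zero_apply] at h1
  linear_combination (norm := module) h1

theorem r_12_0_1 {ρ : (Fin 15 → F) →ₗ[F] Module.End F V} (h : Star (mul15 F) ρ) (v : V) :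
    0 = ρ (e F 12) (ρ (e F 5) v) + ρ (e F 1) (ρ (e F 0) (ρ (e F 12) v)) - ρ (e F 0) (ρ (e F 12) (ρ (e F 1) v)) := by
  have h1 := h (e F 12) (e F 0) (e F 1) v
  simp only [m_0_1, m_12_0, m_12_1, map_neg, map_zero, LinearMap.neg_apply, LinearMap.zero_apply] at h1
  linear_combination (norm := module) h1

theorem r_12_1_0 {ρ : (Fin 15 → F) →ₗ[F] Module.End F V} (h : Star (mul15 F) ρ) (v : V) :
    0 = -ρ (e F 12) (ρ (e F 5) v) + ρ (e F 0) (ρ (e F 1) (ρ (e F 12) v)) - ρ (e F 1) (ρ (e F 12) (ρ (e F 0) v)) := by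
  have h1 := h (e F 12) (e F 1) (e F 0) v
  simp only [m_12_0, m_12_1, m_1_0, map_neg, map_zero, LinearMap.neg_apply, LinearMap.zero_apply] at h1
  linear_combination (norm := module) h1

theorem rho_top {ρ : (Fin 15 → F) →ₗ[F] Module.End F V} (h : Star (mul15 F) ρ) (v : V) :
    ρ (e F 14) v = 0 := by
  have h0 := r_12_0_1 h v
  have h1 := r_2_1_10 h v
  have h2 := congrArg (ρ (e F 0)) (congrArg (ρ (e F 1)) (r_4_2_3 h v))
  simp only [map_add, map_sub, map_neg, map_zero] at h2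
  have h3 := congrArg (ρ (e F 1)) (r_4_0_2 h (ρ (e F 3) v))
  simp only [map_add, map_sub, map_neg, map_zero] at h3
  have h4 := congrArg (ρ (e F 0)) (r_3_1_2 h (ρ (e F 4) v))
  simp only [map_add, map_sub, map_neg, map_zero] at h4
  have h5 := congrArg (ρ (e F 1)) (r_2_0_6 h v)
  simp only [map_add, map_sub, map_neg, map_zero] at h5
  have h6 := r_6_1_0 h (ρ (e F 2) v)
  have h7 := congrArg (ρ (e F 1)) (congrArg (ρ (e F 0)) (r_4_3_2 h v))
  simp only [map_add, map_sub, map_neg, map_zero] at h7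
  have h8 := congrArg (ρ (e F 1)) (congrArg (ρ (e F 0)) (r_2_4_3 h v))
  simp only [map_add, map_sub, map_neg, map_zero] at h8
  have h9 := r_3_2_9 h v
  have h10 := r_4_2_5 h (ρ (e F 3) v)
  have h11 := r_1_0_2 h (ρ (e F 4) (ρ (e F 3) v))
  have h12 := r_0_2_1 h (ρ (e F 4) (ρ (e F 3) v))
  have h13 := congrArg (ρ (e F 2)) (r_3_5_4 h v)
  simp only [map_add, map_sub, map_neg, map_zero] at h13
  have h14 := r_2_0_1 h (ρ (e F 3) (ρ (e F 4) v))
  have h15 := r_4_7_3 h v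
  have h16 := r_2_5_6 h v
  have h17 := r_6_2_5 h v
  have h18 := r_3_7_4 h v
  have h19 := r_4_2_8 h v
  have h20 := congrArg (ρ (e F 2)) (r_4_5_3 h v)
  simp only [map_add, map_sub, map_neg, map_zero] at h20
  have h21 := r_2_1_0 h (ρ (e F 4) (ρ (e F 3) v))
  have h22 := r_3_2_5 h (ρ (e F 4) v)
  have h23 := r_0_1_2 h (ρ (e F 3) (ρ (e F 4) v))
  have h24 := r_1_2_0 h (ρ (e F 3) (ρ (e F 4) v))
  have h25 := r_12_1_0 h v
  have h26 := r_2_0_11 h v
  have h27 := congrArg (ρ (e F 0)) (congrArg (ρ (e F 1)) (r_2_3_4 h v))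
  simp only [map_add, map_sub, map_neg, map_zero] at h27
  have h28 := congrArg (ρ (e F 0)) (congrArg (ρ (e F 1)) (r_3_4_2 h v))
  simp only [map_add, map_sub, map_neg, map_zero] at h28
  have h29 := congrArg (ρ (e F 1)) (congrArg (ρ (e F 0)) (r_3_2_4 h v))
  simp only [map_add, map_sub, map_neg, map_zero] at h29
  have h30 := r_6_0_1 h (ρ (e F 2) v)
  have h31 := congrArg (ρ (e F 0)) (r_2_1_6 h v)
  simp only [map_add, map_sub, map_neg, map_zero] at h31
  linear_combination (norm := module) (1 / 4 : F) • h0 - (1 / 4 : F) • h1 - (1 / 4 : F) • h2 - (1 / 2 : F) • h3 - (1 / 2 : F) • h4 - (1 / 4 : F) • h5 - (1 / 4 : F) • h6 + (1 / 4 : F) • h7 + (1 / 4 : F) • h8 - (1 / 4 : F) • h9 - (1 / 4 : F) • h10 + (1 / 4 : F) • h11 + (1 / 4 : F) • h12 - (1 / 4 : F) • h13 - (1 / 4 : F) • h14 + (1 / 4 : F) • h15 - (1 / 2 : F) • h16 - (1 / 2 : F) • h17 - (1 / 4 : F) • h18 + (1 / 4 : F) • h19 + (1 / 4 : F) • h20 - (1 / 4 : F) • h21 + (1 / 4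 : F) • h22 + (1 / 4 : F) • h23 + (1 / 4 : F) • h24 - (1 / 4 : F) • h25 + (1 / 4 : F) • h26 + (1 / 4 : F) • h27 + (1 / 4 : F) • h28 - (1 / 4 : F) • h29 + (1 / 4 : F) • h30 + (1 / 4 : F) • h31

theorem not_faithful (ρ : (Fin 15 → F) →ₗ[F] Module.End F V) (h : IsRep (mul15 F) ρ) :
    ¬ Function.Injective ρ := by
  intro hinj
  have h1 : ρ (e F 14) = 0 := by
    ext v
    rw [LinearMap.zero_apply]
    exact rho_top (star_of_isRep h) v
  have h2 : e F 14 = 0 := hinj (by rw [h1, map_zero])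
  have h3 := congrFun h2 14
  simp [e] at h3

end rep

end Pool.Agent.V5helper32.Mal
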